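import Pool.Agent.Run7.h946.SQ.Beatty

/-!
# The k-fold Oppermann conjecture for primes in intersections of Beatty sequences, outside of a thin set

`β_1, …, β_r ≥ 1` and `1, 1/β_1, …, 1/β_r` are linearly independent over `ℚ`. There is one thin set `E` of integers (at most
`X / (log X)^A` elements up to `X`, for every `A`) such that for every `k` and all large `n` outside of `E` both the
intervals `[n² - n, n²]` and `[n², n² + n]`, and even all their subintervals of length at least `n / (log n)^W`, contain at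
least `k` primes which belong to all the Beatty sequences `⌊β_j m + γ_j⌋`, for all the shifts `γ` simultaneously.
-/

set_option autoImplicit false
set_option maxHeartbeats 4000000

namespace Pool.Agent.Results.MP_1e9cc8_nt.BeattyPrimes

open Finset Filter Topology
open Run7.h946.SQ (IsThin cnt BeattyPrime Independent)

/-- **Theorem.** -/
theorem result {r : ℕ} (β : Fin r → ℝ) (hβ : ∀ j, 1 ≤ β j) (hind : Independent (fun j => 1 / β j)) :
    ∃ E : Set ℕ, IsThin E ∧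
    (∀ k W : ℕ, ∃ N : ℕ, ∀ n : ℕ, N < n → n ∉ E → ∀ γ : Fin r → ℝ,
      k ≤ cnt (BeattyPrime β γ) (n ^ 2 - n) (n ^ 2) ∧ k ≤ cnt (BeattyPrime β γ) (n ^ 2) (n ^ 2 + n) ∧
      ∀ s t : ℕ, n ^ 2 - n ≤ s → s ≤ t → t ≤ n ^ 2 + n → (n : ℝ) / Real.log n ^ W ≤ (t : ℝ) - s →
        k ≤ cnt (BeattyPrime β γ) s t) ∧
    (∀ (W : ℕ) (ε : ℝ), 0 < ε → ∃ N : ℕ, ∀ n : ℕ, N < n → n ∉ E → ∀ γ : Fin r → ℝ, ∀ s t : ℕ, n ^ 2 - n ≤ s → s ≤ t →
      t ≤ n ^ 2 + n → (n : ℝ) / Real.log n ^ W ≤ (t : ℝ) - s →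
      |(cnt (BeattyPrime β γ) s t : ℝ) - (((t : ℝ) - s) / (2 * Real.log n)) / ∏ j, β j| ≤
        ε * (((t : ℝ) - s) / (2 * Real.log n))) := by
  obtain ⟨E, hE, h⟩ := Run7.h946.SQ.exceptional_beatty hβ hind
  have key : ∀ (W : ℕ) (ε : ℝ), 0 < ε → ∃ N : ℕ, ∀ n : ℕ, N < n → n ∉ E → ∀ γ : Fin r → ℝ, ∀ s t : ℕ,
      n ^ 2 - n ≤ s → s ≤ t →
      t ≤ n ^ 2 + n → (n : ℝ) / Real.log n ^ W ≤ (t : ℝ) - s →
      |(cnt (BeattyPrime β γ) s t : ℝ) - (((t : ℝ) - s) / (2 * Real.log n)) / ∏ j, β j| ≤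
        ε * (((t : ℝ) - s) / (2 * Real.log n)) := by
    intro W ε hε
    obtain ⟨n₀, h1⟩ := h W ε hε
    refine ⟨n₀, fun n hn hnE γ s t hs hst ht hlen => ?_⟩
    have h2 := h1 n (by omega) hnE s t (by
      obtain ⟨m, rfl⟩ : ∃ m, n = m + 1 := ⟨n - 1, by omega⟩
      have h2 : (m + 1) ^ 2 - (m + 1) = m ^ 2 + m := by
        have : (m + 1) ^ 2 = m ^ 2 + m + (m + 1) := by ring
        omega
      rw [h2] at hs
      simp only [Nat.add_sub_cancel]
      omega) hst (by nlinarith) hlen γ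
    rw [div_eq_inv_mul _ (∏ j, β j)]
    exact h2
  have hprod : 0 < ∏ j, β j := prod_pos fun j _ => by linarith [hβ j]
  have main : ∀ k W : ℕ, ∃ N : ℕ, ∀ n : ℕ, N < n → n ∉ E → ∀ γ : Fin r → ℝ,
      ∀ s t : ℕ, n ^ 2 - n ≤ s → s ≤ t → t ≤ n ^ 2 + n → (n : ℝ) / Real.log n ^ W ≤ (t : ℝ) - s →
        k ≤ cnt (BeattyPrime β γ) s t := by
    intro k W
    obtain ⟨δ, hδ⟩ : ∃ δ : ℝ, δ = (∏ j, β j)⁻¹ := ⟨_, rfl⟩
    have hδ0 : 0 < δ := by rw [hδ]; positivity
    obtain ⟨N, h1⟩ := key W (δ / 2) (by positivity)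
    obtain ⟨N', h2⟩ := Run7.h946.SQ.large_log (W + 1) (δ / 4) k (by positivity)
    refine ⟨max (max N N') 3, fun n hn hnE γ s t hs hst ht hlen => ?_⟩
    have hn1 : N < n := lt_of_le_of_lt ((le_max_left _ _).trans (le_max_left _ _)) hn
    have hn2 : N' < n := lt_of_le_of_lt ((le_max_right _ _).trans (le_max_left _ _)) hn
    have hn3 : 3 < n := lt_of_le_of_lt (le_max_right _ _) hn
    have hn3r : (3 : ℝ) < n := by exact_mod_cast hn3
    have hlog : 0 < Real.log n := Real.log_pos (by linarith)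
    have h3 := (abs_le.1 (h1 n hn1 hnE γ s t hs hst ht hlen)).1
    rw [div_eq_inv_mul _ (∏ j, β j), ← hδ] at h3
    have h4 : (n : ℝ) / Real.log n ^ W / (2 * Real.log n) ≤ ((t : ℝ) - s) / (2 * Real.log n) :=
      div_le_div_of_nonneg_right hlen (by positivity)
    have h5 := h2 n hn2.le
    have h6 : δ / 4 * (n / Real.log n ^ (W + 1)) = δ / 2 * ((n : ℝ) / Real.log n ^ W / (2 * Real.log n)) := by
      rw [pow_succ]
      field_simp
      ring
    have h7 : δ / 2 * ((n : ℝ) / Real.log n ^ W / (2 * Real.log n)) ≤ δ / 2 * (((t : ℝ) - s) / (2 * Real.log n)) :=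
      mul_le_mul_of_nonneg_left h4 (by positivity)
    have h8 : (k : ℝ) ≤ cnt (BeattyPrime β γ) s t := by
      rw [h6] at h5
      linarith
    exact_mod_cast h8
  refine ⟨E, hE, fun k W => ?_, key⟩
  obtain ⟨N, h1⟩ := main k (W + 1)
  obtain ⟨N', h2⟩ := main k W
  refine ⟨max (max N N') 3, fun n hn hnE γ => ?_⟩
  have hn1 : N < n := lt_of_le_of_lt ((le_max_left _ _).trans (le_max_left _ _)) hn
  have hn2 : N' < n := lt_of_le_of_lt ((le_max_right _ _).trans (le_max_left _ _)) hn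
  have hn3 : 3 < n := lt_of_le_of_lt (le_max_right _ _) hn
  have hn3r : (3 : ℝ) < n := by exact_mod_cast hn3
  have hlog : 1 ≤ Real.log n := by
    rw [Real.le_log_iff_exp_le (by linarith)]
    have := Real.exp_one_lt_d9
    linarith
  have hdiv : (n : ℝ) / Real.log n ^ (W + 1) ≤ n := div_le_self (by linarith) (one_le_pow₀ hlog)
  have hsub : n ≤ n ^ 2 := Nat.le_self_pow (by norm_num) n
  refine ⟨h1 n hn1 hnE γ _ _ le_rfl (Nat.sub_le _ _) (by omega) ?_,
    h1 n hn1 hnE γ _ _ (Nat.sub_le _ _) (by omega) le_rfl ?_, fun s t hs hst ht hlen => h2 n hn2 hnE γ s t hs hst ht hlen⟩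
  · rw [Nat.cast_sub hsub]
    linarith
  · push_cast
    linarith

end Pool.Agent.Results.MP_1e9cc8_nt.BeattyPrimes
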