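import Pool.Agent.Run7.h994.MC.Cor2
import Pool.Agent.Run7.h462.QA.All

/-!
# Bounded clusters of primes after a positive proportion of the squares

For every `k ≥ 1` and `ε > 0` there are `D` and `c > 0` such that for all large `N` and all `A` with `N^(1/2 + ε) ≤ A ≤ N`: for at
least `c N` of the `n ≤ N` the interval `(n², n² + A]` contains at least `c A / (log N)^D` primes `p` for which there are at least
`k` primes in `[p, p + D]`, and `p + D ≤ n² + A`. (With `A = ⌈N^(1/2 + ε)⌉` this is a part of Oppermann's interval `[n², n² + n]`, of length a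
power `n^(1/2 + ε)` of its own length.)

Method. The Maynard-Tao theorem (in the form with the right order of magnitude, project HR of the starting tree) in an
arbitrary set `T` of relative density `κ → 0` in which the integers and the primes are equidistributed in residue classes up to a
small power level; here `T` is the set of the integers with `{√v - κ} < κ`, `κ = X^(-1/4 + ε)`: exponential sums over primes in residue classes
with the phases `h √p` on average over `h` (Vaughan's identity, double large sieve, van der Corput) with a power saving. The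
clusters found consist of integers free of small prime factors; the upper bound sieve shows that no `n` has too many of them.
-/

set_option autoImplicit false

namespace Pool.Agent.Results.MP_1e9cc8_nt.BoundedClusters

open Finset

/-- the primes `p` with `n² < p`, `p + D ≤ n² + A` such that there are at least `k` primes in `[p, p + D]` -/
def clusters (k D A n : ℕ) : Finset ℕ :=
  (Ioc (n ^ 2) (n ^ 2 + A)).filter (fun p => p.Prime ∧ p + D ≤ n ^ 2 + A ∧ k ≤ #((Icc p (p + D)).filter Nat.Prime))

theorem result (k : ℕ) (hk : 1 ≤ k) (ε : ℝ) (hε : 0 < ε) : ∃ (D : ℕ) (c : ℝ), 0 < c ∧ ∃ N₀ : ℕ, ∀ N : ℕ, N₀ ≤ N →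
    ∀ A : ℕ, (N : ℝ) ^ (1 / 2 + ε) ≤ A → A ≤ N →
      c * N ≤ (#((Icc 1 N).filter (fun n => c * (A / Real.log N ^ D) ≤ (#(clusters k D A n) : ℝ))) : ℝ) := by
  obtain ⟨D, hD, H⟩ := Run7.h994.MC.clusters 2 le_rfl k hk ε hε
  obtain ⟨c, hc, N₀, H⟩ := H (Polynomial.X ^ 2) (by simp) (by simp)
  refine ⟨D, c, hc, N₀ + 1, fun N hN A hA1 hA2 => ?_⟩
  have h1 := H N (by omega) A (by
    rw [Run7.h462.QA.lam_range 2 le_rfl]
    refine le_trans (le_of_eq ?_) hA1
    congr 1
    norm_num) (by
    norm_num
    exact_mod_cast hA2)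
  refine h1.trans ?_
  apply Nat.cast_le.2
  apply card_le_card
  intro n hn
  rw [mem_filter] at hn ⊢
  refine ⟨hn.1, hn.2.trans ?_⟩
  apply Nat.cast_le.2
  have hev : ∀ b : ℕ, ((Polynomial.X ^ 2 : Polynomial ℤ).eval (n : ℤ) + (b : ℤ)).toNat = n ^ 2 + b := by
    intro b
    rw [Polynomial.eval_pow, Polynomial.eval_X]
    have : (n : ℤ) ^ 2 + (b : ℤ) = ((n ^ 2 + b : ℕ) : ℤ) := by push_cast; ring
    rw [this, Int.toNat_natCast]
  apply card_le_card_of_injOn (fun a => n ^ 2 + a)
  · intro a ha
    rw [mem_coe] at ha
    unfold Run7.h994.MC.Cl at ha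
    rw [mem_filter, mem_Icc] at ha
    obtain ⟨⟨ha1, ha2⟩, hp, hk'⟩ := ha
    rw [hev] at hp
    have goal1 : n ^ 2 + a ∈ clusters k D A n := by
      unfold clusters
      rw [mem_filter, mem_Ioc]
      refine ⟨⟨by omega, by omega⟩, hp, by omega, hk'.trans ?_⟩
      apply card_le_card_of_injOn (fun b => n ^ 2 + b)
      · intro b hb
        rw [mem_coe, mem_filter, mem_Icc] at hb
        obtain ⟨⟨hb1, hb2⟩, hb3⟩ := hb
        rw [hev] at hb3
        have goal2 : n ^ 2 + b ∈ (Icc (n ^ 2 + a) (n ^ 2 + a + D)).filter Nat.Prime := by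
          rw [mem_filter, mem_Icc]
          exact ⟨⟨by omega, by omega⟩, hb3⟩
        exact goal2
      · intro x _ y _ hxy
        simp only at hxy
        omega
    exact goal1
  · intro x _ y _ hxy
    simp only at hxy
    omega

end Pool.Agent.Results.MP_1e9cc8_nt.BoundedClusters
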