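import Mathlib
import Pool.Agent.Run7.h337.MK.TreeTU

/-!
# Trees of primes in the two intervals of Oppermann's conjecture: k primes in each of them, almost all n
-/

set_option autoImplicit false

namespace Pool.Agent.Results.MP_1e9cc8_nt.PrimeTreesAcrossSquares

open Finset Filter
open Run7.h337.MK (PrimeLaw AllTreesT)
open Pool.Agent.N384.MQ (ev_log_pow ev_log_ge)

/-- The interval (w, w + n) and its sub-intervals of length at least X / log^T X contain the expected number of primes. -/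
def HalfLaw (T X : ℕ) (ε : ℝ) (w n : ℕ) : Prop :=
  ∀ u v : ℕ, w ≤ u → v ≤ w + n → (u : ℝ) + X / Real.log X ^ T ≤ v → PrimeLaw 1 X ε u v

theorem result (r T U : ℕ) (ε : ℝ) (hε : 0 < ε) (hε1 : ε ≤ 1) :
    ∃ V C D X₀ : ℕ, ∀ X : ℕ, X₀ ≤ X →
    ∃ E : Finset ℕ, (E.card : ℝ) ≤ X / Real.log X ^ U ∧ ∀ n : ℕ, 1 ≤ n → n ≤ X → n ∉ E →
    (X : ℝ) ≤ n * Real.log X ^ (U + 2) ∧
    HalfLaw T X ε (n ^ 2 - n) n ∧ HalfLaw T X ε (n ^ 2) n ∧
    AllTreesT 1 r T V C D X ε (n ^ 2 - n) (n ^ 2 + n) := by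
  classical
  obtain ⟨V, C, D, X₀, h⟩ := Run7.h337.MK.treeT_unc 1 (le_refl 1) r (T + 1) (U + 1) ε hε hε1
  obtain ⟨X₁, hev⟩ := eventually_atTop.1 (ev_log_pow (U + 1) 1)
  refine ⟨V, C, D, max (max X₀ X₁) 3, fun X hX => ?_⟩
  have hX0' : X₀ ≤ X := le_trans (le_trans (le_max_left _ _) (le_max_left _ _)) hX
  have hX1' : X₁ ≤ X := le_trans (le_trans (le_max_right _ _) (le_max_left _ _)) hX
  have hX3 : 3 ≤ X := le_trans (le_max_right _ _) hX
  have hX0 : (0 : ℝ) < X := by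
    have : (3 : ℝ) ≤ X := by exact_mod_cast hX3
    linarith
  have l2 := hev X hX1'
  obtain ⟨hL4, E, hE, h2⟩ := h X hX0'
  obtain ⟨L, hL⟩ : ∃ L, L = Real.log X := ⟨_, rfl⟩
  have hL4' : 4 ≤ L := by rw [hL]; exact hL4
  rw [← hL] at l2 hE h2
  have hL1 : 1 ≤ L := by linarith
  have hL0 : 0 < L := by linarith
  have hmono : ∀ e f : ℕ, e ≤ f → L ^ e ≤ L ^ f := fun e f hef => pow_le_pow_right₀ hL1 hef
  refine ⟨insert 1 (E ∪ E.image fun n => n + 1), ?_, fun n hn1 hnX hnE => ?_⟩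
  · have e1 : ((insert 1 (E ∪ E.image fun n => n + 1)).card : ℝ) ≤ 2 * E.card + 1 := by
      have e2 := card_insert_le 1 (E ∪ E.image fun n => n + 1)
      have e3 := card_union_le E (E.image fun n => n + 1)
      have e4 : (E.image fun n => n + 1).card ≤ E.card := card_image_le
      have e5 : (insert 1 (E ∪ E.image fun n => n + 1)).card ≤ 2 * E.card + 1 := by omega
      exact_mod_cast e5
    have e7 : 4 * ((X : ℝ) / L ^ (U + 1)) ≤ X / L ^ U := by
      rw [pow_succ, ← div_div, mul_div_assoc', div_le_iff₀ hL0]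
      have : 0 ≤ (X : ℝ) / L ^ U := by positivity
      nlinarith
    have e8 : (1 : ℝ) ≤ X / L ^ (U + 1) := by
      rw [le_div_iff₀ (by positivity)]
      exact l2
    rw [← hL]
    linarith
  rw [mem_insert, not_or, mem_union, not_or, mem_image] at hnE
  obtain ⟨f1, f2, f3⟩ := hnE
  have hn2 : 2 ≤ n := by omega
  obtain ⟨g1, g2, g3⟩ := h2 (n - 1) (n + 1) (by omega) (by omega) (by omega)
    (by
      have e1 : ((n - 1 : ℕ) : ℝ) = n - 1 := by
        rw [Nat.cast_sub hn1]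
        norm_num
      have e2 : L ^ 1 ≤ L ^ (T + 1) := hmono _ _ (by omega)
      push_cast
      rw [e1]
      linarith)
    (by
      intro m h5 h6 h7
      rcases (show m = n ∨ m = n - 1 by omega) with h8 | h8
      · exact f2 (h8 ▸ h7)
      · exact f3 ⟨m, h7, by omega⟩)
  have hlo : (n - 1) ^ (1 + 1) ≤ n ^ 2 - n := by
    obtain ⟨c, rfl⟩ : ∃ c, n = c + 1 := ⟨n - 1, by omega⟩
    rw [Nat.add_sub_cancel]
    have e1 : (c + 1) ^ 2 = c ^ 2 + 2 * c + 1 := by ring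
    have e2 : c ^ (1 + 1) = c ^ 2 := rfl
    omega
  have hhi : n ^ 2 + n ≤ (n + 1) ^ (1 + 1) := by
    have e1 : (n + 1) ^ (1 + 1) = n ^ 2 + 2 * n + 1 := by ring
    omega
  have hnn : n ≤ n ^ 2 := by nlinarith
  have hT1 : (X : ℝ) ^ 1 / L ^ (T + 1) ≤ X / L ^ T := by
    rw [pow_one]
    exact div_le_div_of_nonneg_left hX0.le (by positivity) (hmono _ _ (by omega))
  refine ⟨?_, ?_, ?_, Run7.h337.MK.allTreesT_mono (Nat.le_succ T) (by rw [← hL]; exact hL1) hlo hhi g3⟩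
  · rw [← hL]
    have e1 : ((n - 1 : ℕ) : ℝ) ≤ n := by exact_mod_cast Nat.sub_le n 1
    exact g1.trans (mul_le_mul e1 (hmono _ _ (by omega)) (by positivity) (Nat.cast_nonneg _))
  · intro u v hu hv huv
    rw [← hL] at huv
    exact g2 u v (by omega) (by omega) (by linarith)
  · intro u v hu hv huv
    rw [← hL] at huv
    exact g2 u v (by omega) (by omega) (by linarith)

end Pool.Agent.Results.MP_1e9cc8_nt.PrimeTreesAcrossSquares
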