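import Mathlib
import Pool.Agent.Run7.h794.MK.All
import Pool.Agent.Run7.h591.EG.Fin4

set_option autoImplicit false
set_option maxHeartbeats 4000000

universe u

namespace Pool.Agent.Results.MP_1e9cc8_nt.SimultaneousReturns

open Finset MeasureTheory
open Pool.Agent.Run7.h591.EG

section

variable {k : ℕ} {X : Fin k → Type u} [∀ i, MeasurableSpace (X i)]

/-- the primes `p` of `[n^2 - n, n^2]` for which `p - 1` is a return time of all the systems at once, up to `ε` -/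
noncomputable def lower (μ : ∀ i, Measure (X i)) (T : ∀ i, X i → X i) (A : ∀ i, Set (X i)) (ε : ℝ) (n : ℕ) : Finset ℕ :=
  (Icc (n ^ 2 - n) (n ^ 2)).filter (fun p => p.Prime ∧
    (∏ i, (μ i).real (A i)) ^ 2 - ε < ∏ i, (μ i).real (A i ∩ (T i)^[p - 1] ⁻¹' (A i)))

/-- the primes `p` of `[n^2, n^2 + n]` for which `p - 1` is such a return time -/
noncomputable def upper (μ : ∀ i, Measure (X i)) (T : ∀ i, X i → X i) (A : ∀ i, Set (X i)) (ε : ℝ) (n : ℕ) : Finset ℕ :=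
  (Icc (n ^ 2) (n ^ 2 + n)).filter (fun p => p.Prime ∧
    (∏ i, (μ i).real (A i)) ^ 2 - ε < ∏ i, (μ i).real (A i ∩ (T i)^[p - 1] ⁻¹' (A i)))

end

theorem result {k : ℕ} (X : Fin k → Type u) [∀ i, MeasurableSpace (X i)] (μ : ∀ i, Measure (X i))
    [∀ i, IsProbabilityMeasure (μ i)] (T : ∀ i, X i → X i) (hT : ∀ i, MeasurePreserving (T i) (μ i) (μ i))
    (A : ∀ i, Set (X i)) (hA : ∀ i, MeasurableSet (A i)) (ε : ℝ) (hε : 0 < ε) :
    ∃ κ : ℝ, 0 < κ ∧ ∀ C K : ℕ, ∃ N₀ : ℕ, ∀ N : ℕ, N₀ ≤ N → ∃ Bad : Finset ℕ, Bad ⊆ Ioc N (2 * N) ∧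
      (Bad.card : ℝ) ≤ N / Real.log N ^ C ∧ ∀ n ∈ Ioc N (2 * N), n ∉ Bad →
        κ * n / Real.log n ≤ ((lower μ T A ε n).card : ℝ) ∧ κ * n / Real.log n ≤ ((upper μ T A ε n).card : ℝ) ∧
        K ≤ (lower μ T A ε n).card ∧ K ≤ (upper μ T A ε n).card := by
  obtain ⟨κ, hκ, h1⟩ := khin_pi Pool.Agent.Run7.h794.MK.all_all μ T hT A hA ε hε
  obtain ⟨n₀, hn₀⟩ := half_lo
  obtain ⟨n₁, hn₁⟩ := half_hi
  refine ⟨κ, hκ, fun C K => ?_⟩
  obtain ⟨n₂, hn₂⟩ := Pool.Agent.H373R2.T7.ev_L' 1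
  obtain ⟨n₃, hn₃⟩ := ev_big κ K hκ
  have a1 := AW_at' h1 (fun n => n ^ 2 - n) (fun n => n ^ 2) 1 n₀ hn₀
    (fun n => κ * n ≤ Real.log n * (((pr (n ^ 2 - n) (n ^ 2)).filter (fun p =>
      (∏ i, (μ i).real (A i)) ^ 2 - ε < ∏ i, (μ i).real (A i ∩ (T i)^[p - 1] ⁻¹' (A i)))).card : ℝ)) (by
      intro N n _ h
      rwa [len_lo] at h)
  have a2 := AW_at' h1 (fun n => n ^ 2) (fun n => n ^ 2 + n) 1 n₁ hn₁
    (fun n => κ * n ≤ Real.log n * (((pr (n ^ 2) (n ^ 2 + n)).filter (fun p =>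
      (∏ i, (μ i).real (A i)) ^ 2 - ε < ∏ i, (μ i).real (A i ∩ (T i)^[p - 1] ⁻¹' (A i)))).card : ℝ)) (by
      intro N n _ h
      rwa [len_hi] at h)
  refine alm_mono _ _ (max (max n₂ n₃) 3) ?_ (alm_and _ _ a1 a2) C
  rintro n hn ⟨e1, e2⟩
  have hn3 : 3 ≤ n := le_trans (le_max_right _ _) hn
  have hL := hn₂ n (le_trans (le_trans (le_max_left _ _) (le_max_left _ _)) hn)
  have hbig := hn₃ n (le_trans (le_trans (le_max_right _ _) (le_max_left _ _)) hn)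
  have hL0 : 0 < Real.log n := by linarith
  have hlo : lower μ T A ε n = (pr (n ^ 2 - n) (n ^ 2)).filter (fun p =>
      (∏ i, (μ i).real (A i)) ^ 2 - ε < ∏ i, (μ i).real (A i ∩ (T i)^[p - 1] ⁻¹' (A i))) := by
    ext p
    simp only [lower, mem_filter, mem_Icc, pr, mem_Ioc]
    constructor
    · rintro ⟨⟨h1, h2⟩, h3, h4⟩
      refine ⟨⟨⟨lt_of_le_of_ne h1 ?_, h2⟩, h3⟩, h4⟩
      rintro rfl
      exact lo_not_prime n hn3 h3
    · rintro ⟨⟨⟨h1, h2⟩, h3⟩, h4⟩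
      exact ⟨⟨h1.le, h2⟩, h3, h4⟩
  have hup : upper μ T A ε n = (pr (n ^ 2) (n ^ 2 + n)).filter (fun p =>
      (∏ i, (μ i).real (A i)) ^ 2 - ε < ∏ i, (μ i).real (A i ∩ (T i)^[p - 1] ⁻¹' (A i))) := by
    ext p
    simp only [upper, mem_filter, mem_Icc, pr, mem_Ioc]
    constructor
    · rintro ⟨⟨h1, h2⟩, h3, h4⟩
      refine ⟨⟨⟨lt_of_le_of_ne h1 ?_, h2⟩, h3⟩, h4⟩
      rintro rfl
      exact sq_not_prime n h3
    · rintro ⟨⟨⟨h1, h2⟩, h3⟩, h4⟩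
      exact ⟨⟨h1.le, h2⟩, h3, h4⟩
  have f1 : κ * n / Real.log n ≤ ((lower μ T A ε n).card : ℝ) := by
    rw [hlo, div_le_iff₀ hL0]
    linarith
  have f2 : κ * n / Real.log n ≤ ((upper μ T A ε n).card : ℝ) := by
    rw [hup, div_le_iff₀ hL0]
    linarith
  exact ⟨f1, f2, by exact_mod_cast hbig.trans f1, by exact_mod_cast hbig.trans f2⟩

end Pool.Agent.Results.MP_1e9cc8_nt.SimultaneousReturns
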